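import Mathlib

set_option autoImplicit false

namespace Pool.Agent.Results.MP_09543b_pr.InfinitelyManyFixedPoints

/-- The automaton distributional map `Ψ_{A,χ}` of the tree automaton `A` on the finite state space
`S` with child distribution `χ`: the law of `A(n)` where `n` is the count vector of `N ~ χ` many
independent states with law `x`. -/
noncomputable def Psi {S : Type} [Fintype S] [DecidableEq S] (A : (S → ℕ) → S) (χ : PMF ℕ)
    (x : S → ℝ) : S → ℝ := fun s =>
  ∑' m : ℕ, (χ m).toReal *
    ∑ n ∈ (Finset.piAntidiag (Finset.univ : Finset S) m).filter (fun n => A n = s),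
      (Nat.multinomial Finset.univ n : ℝ) * ∏ τ, x τ ^ n τ

section
variable {S : Type} [Fintype S] [DecidableEq S]

/-- the count vector of the pair `{z, s}` -/
def pair (z s : S) : S → ℕ := Pi.single z 1 + Pi.single s 1

theorem pair_inj {z s t : S} (h : pair z s = pair z t) : s = t := by
  have h1 : (Pi.single s 1 : S → ℕ) = Pi.single t 1 := add_left_cancel h
  have h2 := congrFun h1 s
  rw [Pi.single_eq_same] at h2
  by_contra hne
  rw [Pi.single_eq_of_ne hne] at h2
  exact one_ne_zero h2

theorem multinomial_pair {z s : S} (h : s ≠ z) : Nat.multinomial Finset.univ (pair z s) = 2 := by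
  have h1 := Nat.multinomial_spec Finset.univ (pair z s)
  have h2 : ∏ i, (pair z s i).factorial = 1 := by
    refine Finset.prod_eq_one fun i _ => ?_
    unfold pair
    rw [Pi.add_apply]
    by_cases hz : i = z
    · subst hz
      rw [Pi.single_eq_same, Pi.single_eq_of_ne (Ne.symm h)]
      rfl
    · rw [Pi.single_eq_of_ne hz]
      by_cases hs : i = s
      · subst hs
        rw [Pi.single_eq_same]
        rfl
      · rw [Pi.single_eq_of_ne hs]
        rfl
  have h3 : ∑ i, pair z s i = 2 := by
    unfold pair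
    simp [Finset.sum_add_distrib]
  rw [h2, h3, one_mul] at h1
  rw [h1]
  rfl

theorem prod_pair (x : S → ℝ) (z s : S) : ∏ τ, x τ ^ pair z s τ = x z * x s := by
  unfold pair
  simp only [Pi.add_apply, pow_add, Finset.prod_mul_distrib]
  have h : ∀ w : S, ∏ τ, x τ ^ (Pi.single w 1 : S → ℕ) τ = x w := by
    intro w
    rw [Finset.prod_eq_single w]
    · rw [Pi.single_eq_same, pow_one]
    · intro b _ hb
      rw [Pi.single_eq_of_ne hb, pow_zero]
    · intro hw
      exact absurd (Finset.mem_univ w) hw
  rw [h, h]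

open Classical in
/-- the automaton: a vertex with exactly two children, one in state `z` and one in state `s ≠ z`,
gets state `s`; otherwise it gets state `z` -/
noncomputable def aut (z : S) (n : S → ℕ) : S :=
  if h : ∃ s, s ≠ z ∧ n = pair z s then h.choose else z

theorem aut_pair {z s : S} (h : s ≠ z) : aut z (pair z s) = s := by
  have hex : ∃ t, t ≠ z ∧ pair z s = pair z t := ⟨s, h, rfl⟩
  unfold aut
  rw [dif_pos hex]
  exact (pair_inj hex.choose_spec.2).symm

theorem aut_eq_iff {z s : S} (h : s ≠ z) (n : S → ℕ) : aut z n = s ↔ n = pair z s := by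
  constructor
  · intro hn
    unfold aut at hn
    split_ifs at hn with hex
    · have := hex.choose_spec.2
      rw [hn] at this
      exact this
    · exact absurd hn.symm h
  · rintro rfl
    exact aut_pair h

theorem Psi_pure (A : (S → ℕ) → S) (x : S → ℝ) (s : S) :
    Psi A (PMF.pure 2) x s =
      ∑ n ∈ (Finset.piAntidiag (Finset.univ : Finset S) 2).filter (fun n => A n = s),
        (Nat.multinomial Finset.univ n : ℝ) * ∏ τ, x τ ^ n τ := by
  unfold Psi
  rw [tsum_eq_single 2]
  · simp
  · intro m hm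
    simp [hm]

theorem Psi_ne (z : S) (x : S → ℝ) {s : S} (h : s ≠ z) :
    Psi (aut z) (PMF.pure 2) x s = 2 * (x z * x s) := by
  rw [Psi_pure]
  have h1 : (Finset.piAntidiag (Finset.univ : Finset S) 2).filter (fun n => aut z n = s) = {pair z s} := by
    ext n
    rw [Finset.mem_filter, Finset.mem_singleton, aut_eq_iff h]
    constructor
    · exact fun hn => hn.2
    · rintro rfl
      refine ⟨?_, rfl⟩
      rw [Finset.mem_piAntidiag]
      refine ⟨?_, fun i _ => Finset.mem_univ i⟩
      unfold pair
      simp [Finset.sum_add_distrib]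
  rw [h1, Finset.sum_singleton, multinomial_pair h, prod_pair]
  norm_num

theorem Psi_sum (A : (S → ℕ) → S) (x : S → ℝ) (hx : ∑ s, x s = 1) :
    ∑ s, Psi A (PMF.pure 2) x s = 1 := by
  simp only [Psi_pure]
  rw [Finset.sum_fiberwise, ← Finset.sum_pow_eq_sum_piAntidiag, hx, one_pow]

theorem fixed (z : S) (x : S → ℝ) (hx : ∑ s, x s = 1) (hz : x z = 1 / 2) :
    Psi (aut z) (PMF.pure 2) x = x := by
  have hne : ∀ s, s ≠ z → Psi (aut z) (PMF.pure 2) x s = x s := by
    intro s hs
    rw [Psi_ne z x hs, hz]
    ring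
  funext s
  by_cases hs : s = z
  · subst hs
    have h1 := Psi_sum (aut s) x hx
    rw [← Finset.add_sum_erase _ _ (Finset.mem_univ s)] at h1 hx
    have h2 : ∑ t ∈ Finset.univ.erase s, Psi (aut s) (PMF.pure 2) x t = ∑ t ∈ Finset.univ.erase s, x t :=
      Finset.sum_congr rfl fun t ht => hne t (Finset.ne_of_mem_erase ht)
    rw [h2] at h1
    linarith
  · exact hne s hs

end

/-- For every finite set `S` of at least three states there are a tree automaton on `S` and a
child distribution whose automaton distributional map has infinitely many fixed points. -/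
theorem result : ∀ (S : Type) [Fintype S] [DecidableEq S], 3 ≤ Fintype.card S →
    ∃ (A : (S → ℕ) → S) (χ : PMF ℕ), (∃ m : ℕ, 2 ≤ m ∧ χ m ≠ 0) ∧
      {x : S → ℝ | x ∈ stdSimplex ℝ S ∧ Psi A χ x = x}.Infinite := by
  intro S _ _ hcard
  obtain ⟨z, a, b, hza, hzb, hab⟩ := Fintype.two_lt_card_iff.mp hcard
  refine ⟨aut z, PMF.pure 2, ⟨2, le_rfl, by simp⟩, ?_⟩
  let f : ℝ → S → ℝ := fun t => Pi.single z (1 / 2) + (Pi.single a t + Pi.single b (1 / 2 - t))
  have hfz : ∀ t, f t z = 1 / 2 := by
    intro t
    simp only [f, Pi.add_apply, Pi.single_eq_same, Pi.single_eq_of_ne hza, Pi.single_eq_of_ne hzb]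
    ring
  have hfa : ∀ t, f t a = t := by
    intro t
    simp only [f, Pi.add_apply, Pi.single_eq_same, Pi.single_eq_of_ne hza.symm, Pi.single_eq_of_ne hab]
    ring
  have hsum : ∀ t, ∑ s, f t s = 1 := by
    intro t
    simp only [f, Pi.add_apply, Finset.sum_add_distrib, Finset.sum_pi_single', Finset.mem_univ, if_true]
    ring
  have hinj : Set.InjOn f (Set.Icc 0 (1 / 2)) := by
    intro t _ u _ htu
    have := congrFun htu a
    rwa [hfa, hfa] at this
  refine Set.Infinite.mono ?_ ((Set.Icc_infinite (by norm_num : (0 : ℝ) < 1 / 2)).image hinj)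
  rintro _ ⟨t, ht, rfl⟩
  refine ⟨⟨fun s => ?_, hsum t⟩, fixed z (f t) (hsum t) (hfz t)⟩
  have h0 : ∀ (w : S) (r : ℝ), 0 ≤ r → 0 ≤ (Pi.single w r : S → ℝ) s := by
    intro w r hr
    by_cases hs : s = w
    · subst hs
      rwa [Pi.single_eq_same]
    · rw [Pi.single_eq_of_ne hs]
  exact add_nonneg (h0 _ _ (by norm_num)) (add_nonneg (h0 _ _ ht.1) (h0 _ _ (by linarith [ht.2])))

end Pool.Agent.Results.MP_09543b_pr.InfinitelyManyFixedPoints
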